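import Pool.Agent.Lib.MP_4d5ce1_nt.Lv.Lower
import Pool.Agent.Lib.MP_4d5ce1_nt.Lv.Upper

set_option autoImplicit false

open NumberField IsDedekindDomain

open Pool.Agent.Lib.MP_4d5ce1_nt in
/-- The exponents of the exceptional sets of the second main inequality on the projective line, with
the local heights truncated at level `m`, for an arbitrary number of points and an arbitrary number
field: with `κ₁ = 8/7` and `κ_m = 6/(2m+3)` for `m ≥ 2`, the points of height at most `B` with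
`truncm m ≤ (q - D) h + c` number at most `B ^ (max (2 - D) κ_m · d + o(1))`, and at least
`B ^ ((2 - D) d - o(1))` if `D < 2`. -/
theorem Pool.Agent.Results.MP_4d5ce1_nt.AllLevels.result :
    ∀ (K : Type) [Field K] [NumberField K] (S : Set (HeightOneSpectrum (𝓞 K))), S.Finite →
      ∀ (q : ℕ), 2 ≤ q → ∀ (α : Fin q → K × K),
        (∀ i j, i ≠ j → (α i).1 * (α j).2 - (α i).2 * (α j).1 ≠ 0) →
        ∀ m : ℕ, 1 ≤ m → ∀ D : ℝ, 0 ≤ D → ∀ c η : ℝ, 0 < η →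
          (∃ C : ℝ, ∀ B : ℝ, 1 ≤ B → ∀ X : Finset (K × K),
            (∀ x ∈ X, ∀ l, x.1 * (α l).2 - x.2 * (α l).1 ≠ 0) →
            (∀ x ∈ X, ∀ y ∈ X, x ≠ y → x.1 * y.2 - x.2 * y.1 ≠ 0) →
            (∀ x ∈ X, Real.exp (ht x) ≤ B) →
            (∀ x ∈ X, truncm m S α x ≤ ((q : ℝ) - D) * ht x + c) →
            (X.card : ℝ) ≤ C * B ^ (max (2 - D) (if m = 1 then 8 / 7 else 6 / (2 * (m : ℝ) + 3)) *
              (Module.finrank ℚ K : ℝ) + η)) ∧
          (D < 2 → ∃ B₀ : ℝ, ∀ B : ℝ, B₀ ≤ B → ∃ X : Finset (K × K),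
            (∀ x ∈ X, ∀ l, x.1 * (α l).2 - x.2 * (α l).1 ≠ 0) ∧
            (∀ x ∈ X, ∀ y ∈ X, x ≠ y → x.1 * y.2 - x.2 * y.1 ≠ 0) ∧
            (∀ x ∈ X, Real.exp (ht x) ≤ B) ∧
            (∀ x ∈ X, truncm m S α x ≤ ((q : ℝ) - D) * ht x + c) ∧
            B ^ ((2 - D) * (Module.finrank ℚ K : ℝ) - η) ≤ (X.card : ℝ)) := by
  intro K _ _ S hS q hq α hα m hm D hD0 c η hη
  exact ⟨upper_boundm hq m hm S hS α hα D hD0 c η hη,
    fun hD2 => lower_boundm hq m S α hα D hD0 hD2 c η hη⟩
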