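import Pool.Agent.Lib.CO60.Main

set_option autoImplicit false

open NumberField IsDedekindDomain

open Pool.Agent.Lib.MP_4d5ce1_nt in
/-- The points of the projective line over a number field of degree `d`, ordered by the sum `T` of
their truncated local heights relative to `q ≥ 3` points. For every `L` and `ε > 0` all but
`O(R ^ ((2 / q - δ) d))` of the points with `T ≤ log R` and `h ≤ L (log R + 1)` satisfy
`(q - ε) h + c < T`, while at least `R ^ ((2 / q) d - o(1))` points have `T ≤ log R` and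
`h ≤ (log R) / q`. -/
theorem Pool.Agent.Results.MP_4d5ce1_nt.ConductorOrder.result :
    ∀ (K : Type) [Field K] [NumberField K] (S : Set (HeightOneSpectrum (𝓞 K))), S.Finite →
      ∀ (q : ℕ), 3 ≤ q → ∀ (α : Fin q → K × K),
        (∀ i j, i ≠ j → (α i).1 * (α j).2 - (α i).2 * (α j).1 ≠ 0) →
          (∀ L ε c : ℝ, 0 < ε → ∃ δ : ℝ, 0 < δ ∧ ∃ C : ℝ, ∀ R : ℝ, 1 ≤ R → ∀ X : Finset (K × K),
            (∀ x ∈ X, ∀ l, x.1 * (α l).2 - x.2 * (α l).1 ≠ 0) →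
            (∀ x ∈ X, ∀ y ∈ X, x ≠ y → x.1 * y.2 - x.2 * y.1 ≠ 0) →
            (∀ x ∈ X, trunc S α x ≤ Real.log R) →
            (∀ x ∈ X, ht x ≤ L * (Real.log R + 1)) →
            (∀ x ∈ X, trunc S α x ≤ ((q : ℝ) - ε) * ht x + c) →
            (X.card : ℝ) ≤ C * R ^ ((2 / (q : ℝ) - δ) * (Module.finrank ℚ K : ℝ))) ∧
          (∀ η : ℝ, 0 < η → ∃ R₀ : ℝ, ∀ R : ℝ, R₀ ≤ R → ∃ X : Finset (K × K),
            (∀ x ∈ X, ∀ l, x.1 * (α l).2 - x.2 * (α l).1 ≠ 0) ∧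
            (∀ x ∈ X, ∀ y ∈ X, x ≠ y → x.1 * y.2 - x.2 * y.1 ≠ 0) ∧
            (∀ x ∈ X, trunc S α x ≤ Real.log R) ∧
            (∀ x ∈ X, ht x ≤ Real.log R / q) ∧
            R ^ (2 / (q : ℝ) * (Module.finrank ℚ K : ℝ) - η) ≤ (X.card : ℝ)) := by
  intro K _ _ S hS q hq α hα
  exact ⟨fun L ε c hε => Pool.Agent.Lib.CO60.upper hq hα S hS L ε c hε,
    fun η hη => Pool.Agent.Lib.CO60.lower hq hα S η hη⟩
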