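import Pool.Agent.Lib.MP_4d5ce1_nt.BFin
import Pool.Agent.Lib.MP_4d5ce1_nt.BSym

set_option autoImplicit false

open NumberField IsDedekindDomain

open Pool.Agent.Lib.MP_4d5ce1_nt in
/-- Exceptional set of the abc inequality for three points of the projective line over an
arbitrary number field, with exponent `(14/25) d`. -/
theorem Pool.Agent.Results.MP_4d5ce1_nt.ExceptionalSetThree.result :
    ∀ (K : Type) [Field K] [NumberField K] (S : Set (HeightOneSpectrum (𝓞 K))), S.Finite →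
      ∀ (α : Fin 3 → K × K),
        (∀ i j, i ≠ j → (α i).1 * (α j).2 - (α i).2 * (α j).1 ≠ 0) →
        ∀ c η : ℝ, 0 < η →
          ∃ C : ℝ, ∀ B : ℝ, 1 ≤ B → ∀ X : Finset (K × K),
            (∀ x ∈ X, ∀ l, x.1 * (α l).2 - x.2 * (α l).1 ≠ 0) →
            (∀ x ∈ X, ∀ y ∈ X, x ≠ y → x.1 * y.2 - x.2 * y.1 ≠ 0) →
            (∀ x ∈ X, Real.exp (ht x) ≤ B) →
            (∀ x ∈ X, trunc S α x ≤ ht x + c) →
            (X.card : ℝ) ≤ C * B ^ (14 / 25 * (Module.finrank ℚ K : ℝ) + η) := by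
  intro K _ _ S hS α hα c η hη
  have hc : CertSorted 5 (14 / 25) := by
    have h := Cert56.cert
    norm_num at h
    exact h
  exact bil_counting 5 (by norm_num) (14 / 25) (by norm_num) (cert_of_sorted 5 (14 / 25) hc)
    S hS α hα c η hη
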