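import Pool.Agent.Lib.MP_4d5ce1_nt.Count
import Pool.Agent.Lib.MP_4d5ce1_nt.QBounds

set_option autoImplicit false

open NumberField IsDedekindDomain

open Pool.Agent.Lib.MP_4d5ce1_nt in
/-- The exceptional set of the truncated inequality `(q - 2) h ≤ ∑ ∑ λ^(1) + O(1)` for four, five
or six points: exponent `(18/23) d` for `q = 4` and `d` for `q = 5, 6`. -/
theorem Pool.Agent.Results.MP_4d5ce1_nt.FourToSixPoints.result :
    ∀ (K : Type) [Field K] [NumberField K] (S : Set (HeightOneSpectrum (𝓞 K))), S.Finite →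
      ∀ (q : ℕ), 4 ≤ q → q ≤ 6 → ∀ (α : Fin q → K × K),
        (∀ i j, i ≠ j → (α i).1 * (α j).2 - (α i).2 * (α j).1 ≠ 0) →
        ∀ c η : ℝ, 0 < η →
          ∃ C : ℝ, ∀ B : ℝ, 1 ≤ B → ∀ X : Finset (K × K),
            (∀ x ∈ X, ∀ l, x.1 * (α l).2 - x.2 * (α l).1 ≠ 0) →
            (∀ x ∈ X, ∀ y ∈ X, x ≠ y → x.1 * y.2 - x.2 * y.1 ≠ 0) →
            (∀ x ∈ X, Real.exp (ht x) ≤ B) →
            (∀ x ∈ X, trunc S α x ≤ ((q : ℝ) - 2) * ht x + c) →
            (X.card : ℝ) ≤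
              C * B ^ ((if q = 4 then 18 / 23 else 1) * (Module.finrank ℚ K : ℝ) + η) := by
  intro K _ _ S hS q hq4 hq6 α hα c η hη
  have : NeZero q := ⟨by omega⟩
  obtain rfl | rfl | rfl : q = 4 ∨ q = 5 ∨ q = 6 := by omega
  · exact counting 2 (18 / 23) (by norm_num) 6 QC.combBound_four S hS α hα c η hη
  · exact counting 2 1 (by norm_num) 4 QC.combBound_five S hS α hα c η hη
  · exact counting 2 1 (by norm_num) 4 QC.combBound_six S hS α hα c η hη
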